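import Pool.Agent.H64.EV.Targets

/-!
# Row TCA of the board evn_modules: the calculus of the tensors with values in the tensor powers of
the plane
-/

set_option autoImplicit false

open Matrix Pool.Agent.H64.CC Pool.Agent.H2.NL Pool.Agent.H64.EV

namespace Pool.Agent.H60.EV

theorem xs_length : ∀ (j : ℕ) (l : List Bool), (xs j l).length = l.length
  | 0, [] => rfl
  | 0, [_] => rfl
  | 0, _ :: _ :: _ => rfl
  | _ + 1, [] => rfl
  | j + 1, a :: l => by
    change (a :: xs j l).length = _
    rw [List.length_cons, List.length_cons, xs_length j l]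

section

variable {K : Type} [Field K] {I : Type} [Fintype I] [DecidableEq I] (F : OForm K I)

theorem odds_tl : ∀ w : List (I × Bool),
    odds F.tl.o w + odds F.o (w.map Prod.fst) = w.length
  | [] => rfl
  | a :: w => by
    have ih := odds_tl w
    unfold odds at ih ⊢
    rw [List.map_cons, List.length_cons]
    have h1 : F.tl.o a = !F.o a.1 := rfl
    cases h : F.o a.1
    · rw [List.filter_cons_of_pos (by rw [h1, h]; rfl), List.filter_cons_of_neg (by rw [h]; decide),
        List.length_cons]
      omega
    · rw [List.filter_cons_of_neg (by rw [h1, h]; decide), List.filter_cons_of_pos h,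
        List.length_cons]
      omega

theorem zip_map (w : List (I × Bool)) : (w.map Prod.fst).zip (w.map Prod.snd) = w := by
  induction w with
  | nil => rfl
  | cons a w ih => rw [List.map_cons, List.map_cons, List.zip_cons_cons, ih]

theorem sg_ne (p : Bool) : sg K p ≠ 0 := by
  intro h
  have h1 := sg_mul_self K p
  rw [h, zero_mul] at h1
  exact zero_ne_one h1

/-- the components of the class of the diagonal -/
theorem cmp_two (a b : I) (s s' : Bool) :
    F.cmp (two F.tl.ω) [s, s'] [a, b] =
      if s' = s then 0 else (if s = true then 1 else -1) * F.ω a b := by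
  have h1 : F.cmp (two F.tl.ω) [s, s'] [a, b] =
    (F.lam 0 (a, s) * (F.lam 1 (b, s') * 1))⁻¹ * F.tl.ω (a, s) (b, s') := rfl
  have h2 : F.tl.ω (a, s) (b, s') =
    if (b, s') = (F.st a, !s) then F.tl.c (b, s') else 0 := rfl
  have h3 : F.ω a b = if b = F.st a then (F.c b)⁻¹ else 0 := rfl
  rw [h1, h2, h3]
  by_cases hb : b = F.st a
  · rw [if_pos hb]
    have hcb := F.c_ne b
    have hsg := sg_ne (K := K) (F.o b)
    have hss := sg_mul_self K (F.o b)
    have hst : F.st b = a := by rw [hb, F.st_st]
    have hst' : F.st a = b := hb.symm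
    have hca := F.sg_c_st b
    rw [hst] at hca
    cases s <;> cases s'
    · rw [if_neg (by rintro h; simpa using congrArg Prod.snd h), if_pos rfl, mul_zero]
    · rw [if_pos (by rw [hb]; rfl), if_neg (by decide), if_neg (by decide)]
      have h4 : F.lam 0 (a, false) = F.c b := by
        unfold OForm.lam
        rw [pow_zero, one_mul, if_neg (show ¬ (false = true) by decide)]
        change F.c (F.st a) = _
        rw [hst']
      have h5 : F.lam 1 (b, true) = sg K (F.o b) := by
        unfold OForm.lam
        rw [pow_one, if_pos rfl, mul_one]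
      have h6 : F.tl.c (b, true) = -sg K (F.o b) := by
        change (if F.o b = false ∧ true = true then (-1 : K) else 1) = _
        unfold sg
        cases F.o b <;> simp
      rw [h4, h5, h6]
      field_simp
    · rw [if_pos (by rw [hb]; rfl), if_neg (by decide), if_pos rfl]
      have h4 : F.lam 0 (a, true) = 1 := by
        unfold OForm.lam
        rw [pow_zero, one_mul, if_pos rfl]
      have h5 : F.lam 1 (b, false) = F.c b := by
        unfold OForm.lam
        rw [pow_one, if_neg (show ¬ (false = true) by decide)]
        change sg K (F.o b) * F.c (F.st b) = _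
        rw [hst, hca]
      have h6 : F.tl.c (b, false) = 1 := by
        change (if F.o b = false ∧ false = true then (-1 : K) else 1) = _
        rw [if_neg]
        rintro ⟨-, h⟩
        exact absurd h (by decide)
      rw [h4, h5, h6]
      ring
    · rw [if_neg (by rintro h; simpa using congrArg Prod.snd h), if_pos rfl, mul_zero]
  · rw [if_neg (fun h => hb (congrArg Prod.fst h)), if_neg hb, mul_zero, mul_zero, ite_self]

end

theorem pf_TCA (hTC1 : T_TC1) (hTC2 : T_TC2) : T_TCA := by
  intro K _ _ I _ _ F A hA
  obtain ⟨hsw, htp, -⟩ := hTC1 K I F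
  obtain ⟨hcon, -⟩ := hTC2 K I F
  refine ⟨?_, ?_, ?_, ?_, ?_, ?_, ?_⟩
  · intro k t t' ht h σ hσ
    refine hA.congr k (F.cmp t σ) (F.cmp t' σ) (ht σ hσ) fun w hw => ?_
    unfold OForm.cmp
    rw [h (w.zip σ) (by rw [List.length_zip, hw, hσ, min_self])]
  · intro σ hσ
    have h0 : σ = [] := List.length_eq_zero_iff.1 (by simpa using hσ)
    subst h0
    refine hA.congr 0 (fun _ => 1) _ hA.one fun w _ => ?_
    unfold OForm.cmp
    rw [List.zip_nil_right]
    change (1 : K)⁻¹ * 1 = 1
    rw [inv_one, one_mul]
  · intro σ hσ
    match σ, hσ with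
    | [s, s'], _ =>
      have key : ∀ t ∈ A 1, (∀ a b : I, t [a, b] =
          if s' = s then 0 else (if s = true then 1 else -1) * F.ω a b) →
          F.cmp (two F.tl.ω) [s, s'] ∈ A 1 := by
        intro t ht h
        refine hA.congr 1 t _ ht fun w hw => ?_
        match w, hw with
        | [a, b], _ => rw [cmp_two, h a b]
      by_cases hs : s' = s
      · refine key 0 (A 1).zero_mem fun a b => ?_
        rw [if_pos hs]
        rfl
      · cases hs1 : s
        · refine hs1 ▸ key (-two F.ω) ((A 1).neg_mem hA.om) fun a b => ?_
          rw [if_neg hs, if_neg (by rw [hs1]; decide)]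
          change -F.ω a b = _
          ring
        · refine hs1 ▸ key (two F.ω) hA.om fun a b => ?_
          rw [if_neg hs, if_pos hs1]
          change F.ω a b = _
          ring
  · intro k k' t t' ht ht' σ hσ
    have h1 : (σ.take (2 * k)).length = 2 * k := by
      rw [List.length_take, hσ]
      omega
    have h2 : (σ.drop (2 * k)).length = 2 * k' := by
      rw [List.length_drop, hσ]
      omega
    exact hA.congr (k + k') _ _ (hA.tp k k' _ _ (ht _ h1) (ht' _ h2))
      fun w hw => htp k t t' σ w (by rw [hσ, hw]) (by rw [hw]; omega)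
  · intro k j t ht hj σ hσ
    have h1 := hA.sw k j _ (ht (xs j σ) (by rw [xs_length, hσ])) hj
    exact hA.congr k _ _ ((A k).neg_mem h1)
      fun w hw => hsw j t σ w (by rw [hσ, hw]) (by rw [hw]; exact hj)
  · intro k j t ht hj σ hσ
    have hl : ∀ s s' : Bool, (σ.take j ++ s :: s' :: σ.drop j).length = 2 * (k + 1) := by
      intro s s'
      rw [List.length_append, List.length_cons, List.length_cons, List.length_take,
        List.length_drop, hσ]
      omega
    have h1 := hA.con k j _ (ht _ (hl false true)) hj
    have h2 := hA.con k j _ (ht _ (hl true false)) hj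
    exact hA.congr k _ _ ((A k).sub_mem h1 h2)
      fun w hw => hcon j t σ w (by rw [hσ, hw]) (by rw [hw]; exact hj)
  · intro k t w ht hw h
    have h1 : F.cmp t (w.map Prod.snd) (w.map Prod.fst) ≠ 0 := by
      unfold OForm.cmp
      rw [zip_map]
      exact mul_ne_zero (inv_ne_zero (F.lw_ne w 0)) h
    have h2 := hA.even k _ (w.map Prod.fst) (ht (w.map Prod.snd) (by rw [List.length_map, hw]))
      (by rw [List.length_map, hw]) h1
    have h3 := odds_tl F w
    rw [hw] at h3
    rcases h2 with ⟨r, hr⟩
    exact ⟨k - r, by omega⟩

end Pool.Agent.H60.EV
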