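import Pool.Agent.H64.EV.Targets

/-!
# Row TIN of the board evn_modules: the calculus of the invariant tensors
-/

set_option autoImplicit false

open Matrix Pool.Agent.H64.CC Pool.Agent.H2.NL Pool.Agent.H64.EV

namespace Pool.Agent.H60.EV

section

variable {K : Type} [Field K] {J : Type} [Fintype J]

/-- the derivation depends on the values on the words of the same length only -/
theorem der_congr (T : Matrix J J K) : ∀ (w : List J) (t t' : List J → K),
    (∀ v : List J, v.length = w.length → t v = t' v) → der T t w = der T t' w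
  | [], _, _, _ => rfl
  | a :: l, t, t', h => by
    change ∑ b, T a b * t (b :: l) + der T (fun l' => t (a :: l')) l =
      ∑ b, T a b * t' (b :: l) + der T (fun l' => t' (a :: l')) l
    rw [der_congr T l (fun l' => t (a :: l')) (fun l' => t' (a :: l'))
      (fun v hv => h (a :: v) (by rw [List.length_cons, List.length_cons, hv]))]
    congr 1
    exact Finset.sum_congr rfl fun b _ => by rw [h (b :: l) rfl]

theorem skew_omega [DecidableEq J] (G : Form K J) (T : Matrix J J K) (h : Tᵀ * G.η + G.η * T = 0) :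
    T * G.ω + G.ω * Tᵀ = 0 := by
  have h1 : G.ω * (Tᵀ * G.η + G.η * T) * G.ω = 0 := by
    rw [h, Matrix.mul_zero, Matrix.zero_mul]
  have h2 : G.ω * (Tᵀ * G.η + G.η * T) * G.ω = G.ω * Tᵀ * (G.η * G.ω) + G.ω * G.η * (T * G.ω) := by
    rw [Matrix.mul_add, Matrix.add_mul]
    simp only [Matrix.mul_assoc]
  rw [h2, G.η_mul_ω, G.ω_mul_η, Matrix.mul_one, Matrix.one_mul] at h1
  rw [add_comm]
  exact h1

end

section

variable {K : Type} [Field K] {I : Type} [Fintype I] [DecidableEq I] (F : OForm K I)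

theorem EE_par (x y : I × Bool) (h : F.EE x y ≠ 0) : F.tl.o x = F.tl.o y := by
  have h1 : F.EE x y = if x.1 = y.1 ∧ x.2 = false ∧ y.2 = true then F.c (F.st x.1) else 0 := rfl
  rw [h1] at h
  by_cases h2 : x.1 = y.1 ∧ x.2 = false ∧ y.2 = true
  · change (!F.o x.1) = !F.o y.1
    rw [h2.1]
  · rw [if_neg h2] at h
    exact absurd rfl h

theorem FF_par (x y : I × Bool) (h : F.FF x y ≠ 0) : F.tl.o x = F.tl.o y := by
  have h1 : F.FF x y = if x.1 = y.1 ∧ x.2 = true ∧ y.2 = false then (F.c (F.st x.1))⁻¹ else 0 := rfl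
  rw [h1] at h
  by_cases h2 : x.1 = y.1 ∧ x.2 = true ∧ y.2 = false
  · change (!F.o x.1) = !F.o y.1
    rw [h2.1]
  · rw [if_neg h2] at h
    exact absurd rfl h

/-- the product of a transposed matrix and of the form -/
theorem tr_mul_eta (T : Matrix (I × Bool) (I × Bool) K) (x y : I × Bool) :
    (Tᵀ * F.tl.η) x y = T (F.tl.st y) x * F.tl.c (F.tl.st y) := by
  rw [Matrix.mul_apply, Finset.sum_eq_single (F.tl.st y)]
  · rw [Matrix.transpose_apply]
    change _ * (if y = F.tl.st (F.tl.st y) then F.tl.c (F.tl.st y) else 0) = _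
    rw [if_pos (F.tl.st_st y).symm]
  · intro z _ hz
    change _ * (if y = F.tl.st z then F.tl.c z else 0) = _
    rw [if_neg, mul_zero]
    intro h
    exact hz (by rw [h, F.tl.st_st])
  · intro h
    exact absurd (Finset.mem_univ _) h

/-- the product of the form and of a matrix -/
theorem eta_mul (T : Matrix (I × Bool) (I × Bool) K) (x y : I × Bool) :
    (F.tl.η * T) x y = F.tl.c x * T (F.tl.st x) y := by
  rw [Matrix.mul_apply, Finset.sum_eq_single (F.tl.st x)]
  · change (if F.tl.st x = F.tl.st x then F.tl.c x else 0) * _ = _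
    rw [if_pos rfl]
  · intro z _ hz
    change (if z = F.tl.st x then F.tl.c x else 0) * _ = _
    rw [if_neg hz, zero_mul]
  · intro h
    exact absurd (Finset.mem_univ _) h

theorem EE_skew : F.EEᵀ * F.tl.η + F.tl.η * F.EE = 0 := by
  ext ⟨a, s⟩ ⟨b, s'⟩
  rw [Matrix.add_apply, tr_mul_eta, eta_mul]
  change (if F.st b = a ∧ (!s') = false ∧ s = true then F.c (F.st (F.st b)) else 0) *
      (if F.o (F.st b) = false ∧ (!s') = true then (-1 : K) else 1) +
    (if F.o a = false ∧ s = true then (-1 : K) else 1) *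
      (if F.st a = b ∧ (!s) = false ∧ s' = true then F.c (F.st (F.st a)) else 0) = 0
  by_cases hab : F.st a = b
  · have hba : F.st b = a := by rw [← hab, F.st_st]
    have hsc := F.sg_c_st b
    rw [hba] at hsc
    have ho : F.o b = F.o a := by rw [← hab, F.o_st]
    rw [ho] at hsc
    rw [hba, hab, hba]
    cases s <;> cases s'
    · simp
    · simp
    · simp
    · unfold sg at hsc
      cases h : F.o a <;> rw [h] at hsc <;> simp at hsc ⊢ <;> rw [← hsc] <;> ring
  · have hba : F.st b ≠ a := fun h => hab (by rw [← h, F.st_st])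
    rw [if_neg (fun h => hba h.1), if_neg (fun h : F.st a = b ∧ _ => hab h.1), zero_mul, mul_zero,
      add_zero]

theorem FF_skew : F.FFᵀ * F.tl.η + F.tl.η * F.FF = 0 := by
  ext ⟨a, s⟩ ⟨b, s'⟩
  rw [Matrix.add_apply, tr_mul_eta, eta_mul]
  change (if F.st b = a ∧ (!s') = true ∧ s = false then (F.c (F.st (F.st b)))⁻¹ else 0) *
      (if F.o (F.st b) = false ∧ (!s') = true then (-1 : K) else 1) +
    (if F.o a = false ∧ s = true then (-1 : K) else 1) *
      (if F.st a = b ∧ (!s) = true ∧ s' = false then (F.c (F.st (F.st a)))⁻¹ else 0) = 0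
  by_cases hab : F.st a = b
  · have hba : F.st b = a := by rw [← hab, F.st_st]
    have hsc := F.sg_c_st b
    rw [hba] at hsc
    have ho : F.o b = F.o a := by rw [← hab, F.o_st]
    rw [ho] at hsc
    rw [hba, hab, hba]
    cases s <;> cases s'
    · unfold sg at hsc
      cases h : F.o a <;> rw [h] at hsc <;> simp at hsc ⊢ <;> rw [← hsc] <;> simp
    · simp
    · simp
    · simp
  · have hba : F.st b ≠ a := fun h => hab (by rw [← h, F.st_st])
    rw [if_neg (fun h => hba h.1), if_neg (fun h : F.st a = b ∧ _ => hab h.1), zero_mul, mul_zero,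
      add_zero]

end

theorem pf_TIN (hTCA : T_TCA) (hDEC : T_DEC) : T_TIN := by
  intro K _ _ I _ _ F A hA
  have hTA := hTCA K I F A hA
  obtain ⟨hEsw, hEcon, hEtp, hEtwo⟩ := hDEC K (I × Bool) F.tl.o F.tl.η F.EE (EE_par F)
  obtain ⟨hFsw, hFcon, hFtp, hFtwo⟩ := hDEC K (I × Bool) F.tl.o F.tl.η F.FF (FF_par F)
  have hEcon' := hEcon (EE_skew F)
  have hFcon' := hFcon (FF_skew F)
  refine ⟨⟨?_, ?_, ?_, ?_, ?_, ?_, ?_⟩, EE_skew F, FF_skew F⟩
  · rintro k t t' ⟨h1, h2⟩ h
    refine ⟨hTA.congr k t t' h1 h, fun w hw => ?_⟩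
    rw [der_congr F.EE w t' t (fun v hv => h v (by rw [hv, hw])),
      der_congr F.FF w t' t (fun v hv => h v (by rw [hv, hw]))]
    exact h2 w hw
  · refine ⟨hTA.one, fun w hw => ?_⟩
    have h0 : w = [] := List.length_eq_zero_iff.1 (by simpa using hw)
    subst h0
    exact ⟨rfl, rfl⟩
  · exact ⟨hTA.om, fun w _ => ⟨hEtwo F.tl.ω (skew_omega F.tl F.EE (EE_skew F)) w,
      hFtwo F.tl.ω (skew_omega F.tl F.FF (FF_skew F)) w⟩⟩
  · rintro k k' t t' ⟨h1, h2⟩ ⟨h1', h2'⟩
    refine ⟨hTA.tp k k' t t' h1 h1', fun w hw => ?_⟩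
    have hl : (w.take (2 * k)).length = 2 * k := by
      rw [List.length_take, hw]
      omega
    have hl' : (w.drop (2 * k)).length = 2 * k' := by
      rw [List.length_drop, hw]
      omega
    rw [hEtp (2 * k) t t' w (by omega), hFtp (2 * k) t t' w (by omega)]
    unfold Pool.Agent.H2.NL.tp
    rw [(h2 _ hl).1, (h2 _ hl).2, (h2' _ hl').1, (h2' _ hl').2]
    constructor <;> ring
  · rintro k j t ⟨h1, h2⟩ hj
    refine ⟨hTA.sw k j t h1 hj, fun w hw => ?_⟩
    rw [hEsw j t w (by omega), hFsw j t w (by omega)]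
    obtain ⟨α, a, b, β, rfl, rfl⟩ := exists_split j w (by omega)
    have h3 := h2 (α ++ b :: a :: β) (by simpa using hw)
    rw [sw_append, sw_append, h3.1, h3.2, mul_zero]
    exact ⟨rfl, rfl⟩
  · rintro k j t ⟨h1, h2⟩ hj
    refine ⟨hTA.con k j t h1 hj, fun w hw => ?_⟩
    rw [hEcon' j t w (by omega), hFcon' j t w (by omega)]
    obtain ⟨α, β, rfl, rfl⟩ := exists_split' j w (by omega)
    rw [Pool.Agent.H2.NL.con_append, Pool.Agent.H2.NL.con_append]
    have h3 : ∀ a b, (α ++ a :: b :: β).length = 2 * (k + 1) := by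
      intro a b
      rw [List.length_append] at hw ⊢
      rw [List.length_cons, List.length_cons]
      omega
    constructor <;> refine Finset.sum_eq_zero fun a _ => Finset.sum_eq_zero fun b _ => ?_
    · rw [(h2 _ (h3 a b)).1, mul_zero]
    · rw [(h2 _ (h3 a b)).2, mul_zero]
  · rintro k t w ⟨h1, -⟩ hw h
    exact hTA.even k t w h1 hw h

end Pool.Agent.H60.EV
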